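import Pool.Agent.H10.RIC.Stmts

/-!
# RIC, module RCH: triples with a rich coordinate
-/

set_option autoImplicit false

namespace Pool.RIC

open Finset Pool.Agent.H98.ABCR Pool.SHA

namespace H71R

theorem rad_mul {a b : ℕ} (h : a.Coprime b) : rad (a * b) = rad a * rad b := by
  unfold rad
  rw [h.primeFactors_mul, Finset.prod_union h.disjoint_primeFactors]

theorem rad_pos (n : ℕ) : 0 < rad n := by
  unfold rad
  exact Finset.prod_pos (fun p hp => (Nat.prime_of_mem_primeFactors hp).pos)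

theorem coord_pos {v : ℕ × ℕ} (hv : IsTri v) (s : Fin 3) : 0 < coord v s := by
  obtain ⟨ha, hb, -⟩ := hv
  fin_cases s
  · exact ha
  · exact hb
  · exact Nat.add_pos_left ha _

theorem coord_le (v : ℕ × ℕ) (s : Fin 3) : coord v s ≤ v.1 + v.2 := by
  fin_cases s
  · exact Nat.le_add_right _ _
  · exact Nat.le_add_left _ _
  · exact le_rfl

theorem cop {v : ℕ × ℕ} (hv : IsTri v) (i : Fin 3) :
    (coord v (i + 1)).Coprime (coord v i) ∧ (coord v (i + 2)).Coprime (coord v i) := by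
  obtain ⟨-, -, hc⟩ := hv
  have h01 : v.1.Coprime v.2 := hc
  have h02 : v.1.Coprime (v.1 + v.2) := by simpa using hc
  have h12 : v.2.Coprime (v.1 + v.2) := by simpa using hc.symm
  fin_cases i
  · exact ⟨h01.symm, h02.symm⟩
  · exact ⟨h12.symm, h01⟩
  · exact ⟨h02, h12⟩

theorem rr {v : ℕ × ℕ} (hv : IsTri v) (i : Fin 3) :
    RR v = rad (coord v i) * (rad (coord v (i + 1)) * rad (coord v (i + 2))) := by
  obtain ⟨-, -, hc⟩ := hv
  have h02 : v.1.Coprime (v.1 + v.2) := by simpa using hc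
  have h12 : v.2.Coprime (v.1 + v.2) := by simpa using hc.symm
  have h : RR v = rad v.1 * rad v.2 * rad (v.1 + v.2) := by
    unfold RR nn
    rw [rad_mul (Nat.Coprime.mul_left h02 h12), rad_mul hc]
  rw [h]
  fin_cases i
  · show _ = rad v.1 * (rad v.2 * rad (v.1 + v.2))
    ring
  · show _ = rad v.2 * (rad (v.1 + v.2) * rad v.1)
    ring
  · show _ = rad (v.1 + v.2) * (rad v.1 * rad v.2)
    ring

theorem sgn (i : Fin 3) : ∃ σ : ℤ, (σ = 1 ∨ σ = -1) ∧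
    (∀ v : ℕ × ℕ, (coord v i : ℤ) ∣ (coord v (i + 1) : ℤ) - σ * coord v (i + 2)) ∧
    ∀ v v' : ℕ × ℕ, coord v (i + 1) = coord v' (i + 1) → coord v (i + 2) = coord v' (i + 2) →
      v = v' := by
  fin_cases i
  · refine ⟨1, Or.inl rfl, fun v => ⟨-1, ?_⟩, fun v v' h1 h2 => ?_⟩
    · show (v.2 : ℤ) - 1 * ((v.1 + v.2 : ℕ) : ℤ) = (v.1 : ℤ) * (-1)
      push_cast
      ring
    · have h1' : v.2 = v'.2 := h1
      have h2' : v.1 + v.2 = v'.1 + v'.2 := h2
      exact Prod.ext (by omega) h1'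
  · refine ⟨1, Or.inl rfl, fun v => ⟨1, ?_⟩, fun v v' h1 h2 => ?_⟩
    · show ((v.1 + v.2 : ℕ) : ℤ) - 1 * (v.1 : ℤ) = (v.2 : ℤ) * 1
      push_cast
      ring
    · have h1' : v.1 + v.2 = v'.1 + v'.2 := h1
      have h2' : v.1 = v'.1 := h2
      exact Prod.ext h2' (by omega)
  · refine ⟨-1, Or.inr rfl, fun v => ⟨1, ?_⟩, fun v v' h1 h2 => ?_⟩
    · show (v.1 : ℤ) - (-1) * (v.2 : ℤ) = ((v.1 + v.2 : ℕ) : ℤ) * 1
      push_cast
      ring
    · exact Prod.ext h1 h2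

/-- Cauchy - Schwarz for the residues modulo `q` -/
theorem cs (q : ℕ) [NeZero q] (σ : ℤ) (hσ : σ = 1 ∨ σ = -1) (A B : Finset ℕ) (W : Finset (ℕ × ℕ))
    (hW : ∀ w ∈ W, w.1 ∈ A ∧ w.2 ∈ B ∧ (q : ℤ) ∣ (w.1 : ℤ) - σ * w.2) :
    (W.card : ℝ) ^ 2 ≤ (((A ×ˢ A).filter (fun w => w.1 ≡ w.2 [MOD q])).card : ℝ) *
      (((B ×ˢ B).filter (fun w => w.1 ≡ w.2 [MOD q])).card : ℝ) := by
  classical
  let f : ZMod q → Finset ℕ := fun r => A.filter (fun x => (x : ZMod q) = r)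
  let g : ZMod q → Finset ℕ := fun r => B.filter (fun x => (σ : ZMod q) * (x : ZMod q) = r)
  have hs : (σ : ZMod q) * (σ : ZMod q) = 1 := by
    rcases hσ with h | h
    · rw [h]; simp
    · rw [h]; simp
  have h1 : W.card ≤ ∑ r : ZMod q, (f r).card * (g r).card := by
    rw [Finset.card_eq_sum_card_fiberwise (f := fun w : ℕ × ℕ => (w.1 : ZMod q))
      (t := Finset.univ) (fun _ _ => Finset.mem_coe.2 (Finset.mem_univ _))]
    refine Finset.sum_le_sum fun r _ => ?_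
    rw [← Finset.card_product]
    refine Finset.card_le_card fun w hw => ?_
    rw [Finset.mem_filter] at hw
    obtain ⟨hA, hB, hd⟩ := hW w hw.1
    rw [Finset.mem_product, Finset.mem_filter, Finset.mem_filter]
    refine ⟨⟨hA, hw.2⟩, hB, ?_⟩
    have h2 : (((w.1 : ℤ) - σ * w.2 : ℤ) : ZMod q) = 0 := (ZMod.intCast_zmod_eq_zero_iff_dvd _ q).2 hd
    push_cast at h2
    rw [← hw.2]
    exact (sub_eq_zero.1 h2).symm
  have h2 : ∑ r : ZMod q, (f r).card ^ 2 =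
      ((A ×ˢ A).filter (fun w => w.1 ≡ w.2 [MOD q])).card := by
    rw [Finset.card_eq_sum_card_fiberwise (f := fun w : ℕ × ℕ => (w.1 : ZMod q))
      (t := Finset.univ) (fun _ _ => Finset.mem_coe.2 (Finset.mem_univ _))]
    refine Finset.sum_congr rfl fun r _ => ?_
    rw [sq, ← Finset.card_product]
    congr 1
    ext w
    rw [Finset.mem_product, Finset.mem_filter, Finset.mem_filter, Finset.mem_filter,
      Finset.mem_filter, Finset.mem_product]
    constructor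
    · rintro ⟨⟨ha, hb⟩, hc, hd⟩
      exact ⟨⟨⟨ha, hc⟩, (ZMod.natCast_eq_natCast_iff _ _ _).1 (hb.trans hd.symm)⟩, hb⟩
    · rintro ⟨⟨⟨ha, hc⟩, he⟩, hb⟩
      exact ⟨⟨ha, hb⟩, hc, ((ZMod.natCast_eq_natCast_iff _ _ _).2 he).symm.trans hb⟩
  have h3 : ∑ r : ZMod q, (g r).card ^ 2 =
      ((B ×ˢ B).filter (fun w => w.1 ≡ w.2 [MOD q])).card := by
    rw [Finset.card_eq_sum_card_fiberwise (f := fun w : ℕ × ℕ => (σ : ZMod q) * (w.1 : ZMod q))
      (t := Finset.univ) (fun _ _ => Finset.mem_coe.2 (Finset.mem_univ _))]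
    refine Finset.sum_congr rfl fun r _ => ?_
    rw [sq, ← Finset.card_product]
    congr 1
    ext w
    rw [Finset.mem_product, Finset.mem_filter, Finset.mem_filter, Finset.mem_filter,
      Finset.mem_filter, Finset.mem_product]
    constructor
    · rintro ⟨⟨ha, hb⟩, hc, hd⟩
      refine ⟨⟨⟨ha, hc⟩, (ZMod.natCast_eq_natCast_iff _ _ _).1 ?_⟩, hb⟩
      have h4 := congrArg (fun z => (σ : ZMod q) * z) (hb.trans hd.symm)
      simp only [← mul_assoc, hs, one_mul] at h4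
      exact h4
    · rintro ⟨⟨⟨ha, hc⟩, he⟩, hb⟩
      refine ⟨⟨ha, hb⟩, hc, ?_⟩
      rw [← (ZMod.natCast_eq_natCast_iff _ _ _).2 he]
      exact hb
  have h4 := Finset.sum_mul_sq_le_sq_mul_sq (Finset.univ : Finset (ZMod q))
    (fun r => ((f r).card : ℝ)) (fun r => ((g r).card : ℝ))
  have h1' : (W.card : ℝ) ≤ ∑ r : ZMod q, ((f r).card : ℝ) * ((g r).card : ℝ) := by
    exact_mod_cast h1
  calc (W.card : ℝ) ^ 2 ≤ (∑ r : ZMod q, ((f r).card : ℝ) * ((g r).card : ℝ)) ^ 2 :=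
        pow_le_pow_left₀ (Nat.cast_nonneg _) h1' 2
    _ ≤ _ := h4
    _ = _ := by
      rw [← h2, ← h3]
      push_cast
      rfl

/-- one class -/
theorem fib {κ ε1 C2 X Y : ℝ} (hC2 : 1 ≤ C2)
    (hE : ∀ (X Y : ℝ) (q : ℕ) (P : Finset ℕ), 1 ≤ X → 1 ≤ Y → Y ≤ X → X ^ (3 : ℝ) ≤ q →
      (q : ℝ) ≤ X ^ κ → (∀ n ∈ P, 0 < n ∧ (n : ℝ) ≤ X ^ κ ∧ (rad n : ℝ) ≤ Y ∧ n.Coprime q) →
      (((P ×ˢ P).filter (fun w => w.1 ≡ w.2 [MOD q])).card : ℝ) ≤ C2 * X ^ ε1 * Y)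
    (hX : 1 ≤ X) (hY : 1 ≤ Y) (i : Fin 3) (q : ℕ) (hq3 : X ^ (3 : ℝ) ≤ q) (a b : ℕ)
    (W : Finset (ℕ × ℕ)) (hW : ∀ v ∈ W, IsTri v ∧ (RR v : ℝ) ≤ X ∧ hh v ≤ κ * Real.log X ∧
      Y ≤ (rad (coord v i) : ℝ) ∧ q ∣ coord v i ∧ Nat.log 2 (rad (coord v (i + 1))) = a ∧
      Nat.log 2 (rad (coord v (i + 2))) = b) :
    (W.card : ℝ) ≤ 2 * C2 * X ^ ε1 * Real.sqrt (X / Y) := by
  classical
  have hX0 : (0 : ℝ) < X := by linarith
  have hY0 : (0 : ℝ) < Y := by linarith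
  have hXe : (0 : ℝ) < X ^ ε1 := Real.rpow_pos_of_pos hX0 _
  rcases W.eq_empty_or_nonempty with h0 | ⟨v0, hv0⟩
  · rw [h0, Finset.card_empty, Nat.cast_zero]
    positivity
  obtain ⟨T0, R0, -, Y0, D0, a0, b0⟩ := hW v0 hv0
  -- sizes
  have hsz : ∀ v ∈ W, ∀ s, (coord v s : ℝ) ≤ X ^ κ := by
    intro v hv s
    obtain ⟨T, -, H, -⟩ := hW v hv
    have h1 : (0 : ℝ) < ((v.1 + v.2 : ℕ) : ℝ) := by
      have := T.1
      exact_mod_cast Nat.add_pos_left this _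
    have h2 : ((v.1 + v.2 : ℕ) : ℝ) ≤ X ^ κ := by
      rw [← Real.exp_log h1, Real.rpow_def_of_pos hX0, mul_comm]
      exact Real.exp_le_exp.2 H
    have h3 : (coord v s : ℝ) ≤ ((v.1 + v.2 : ℕ) : ℝ) := by exact_mod_cast coord_le v s
    linarith
  have hq1 : (1 : ℝ) ≤ q := le_trans (Real.one_le_rpow hX (by norm_num)) hq3
  have hqp : 0 < q := by
    have : (1 : ℕ) ≤ q := by exact_mod_cast hq1
    omega
  have : NeZero q := ⟨hqp.ne'⟩
  have hqk : (q : ℝ) ≤ X ^ κ := by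
    have h1 : q ≤ coord v0 i := Nat.le_of_dvd (coord_pos T0 i) D0
    have h2 : (q : ℝ) ≤ coord v0 i := by exact_mod_cast h1
    exact h2.trans (hsz v0 hv0 i)
  have hrr : ∀ v ∈ W, (rad (coord v (i + 1)) : ℝ) ≤ X ∧ (rad (coord v (i + 2)) : ℝ) ≤ X := by
    intro v hv
    obtain ⟨T, R1, -⟩ := hW v hv
    have h1 := rr T i
    have h2 : (RR v : ℝ) = rad (coord v i) * (rad (coord v (i + 1)) * rad (coord v (i + 2))) := by
      rw [h1]
      push_cast
      ring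
    have p0 : (1 : ℝ) ≤ rad (coord v i) := by exact_mod_cast rad_pos _
    have p1 : (1 : ℝ) ≤ rad (coord v (i + 1)) := by exact_mod_cast rad_pos _
    have p2 : (1 : ℝ) ≤ rad (coord v (i + 2)) := by exact_mod_cast rad_pos _
    have h3 : (rad (coord v (i + 1)) : ℝ) ≤ rad (coord v (i + 1)) * rad (coord v (i + 2)) := by
      nlinarith
    have h4 : (rad (coord v (i + 2)) : ℝ) ≤ rad (coord v (i + 1)) * rad (coord v (i + 2)) := by
      nlinarith
    have h5 : (rad (coord v (i + 1)) * rad (coord v (i + 2)) : ℝ) ≤ RR v := by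
      rw [h2]
      nlinarith
    exact ⟨by linarith, by linarith⟩
  have hprod : Y * ((rad (coord v0 (i + 1)) : ℝ) * rad (coord v0 (i + 2))) ≤ X := by
    have h1 := rr T0 i
    have h2 : (RR v0 : ℝ) =
        rad (coord v0 i) * (rad (coord v0 (i + 1)) * rad (coord v0 (i + 2))) := by
      rw [h1]
      push_cast
      ring
    rw [h2] at R0
    refine le_trans ?_ R0
    exact mul_le_mul_of_nonneg_right Y0 (by positivity)
  obtain ⟨σ, hσ, hdv, hinj⟩ := sgn i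
  set A : Finset ℕ := W.image (fun v => coord v (i + 1)) with hA
  set B : Finset ℕ := W.image (fun v => coord v (i + 2)) with hB
  set W' : Finset (ℕ × ℕ) := W.image (fun v => (coord v (i + 1), coord v (i + 2))) with hW'
  have hcard : W'.card = W.card := by
    refine Finset.card_image_of_injOn fun v _ v' _ h => ?_
    simp only [Prod.mk.injEq] at h
    exact hinj v v' h.1 h.2
  have hcs := cs q σ hσ A B W' (by
    intro w hw
    obtain ⟨v, hv, rfl⟩ := Finset.mem_image.mp hw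
    refine ⟨Finset.mem_image.mpr ⟨v, hv, rfl⟩, Finset.mem_image.mpr ⟨v, hv, rfl⟩, ?_⟩
    have h1 : (q : ℤ) ∣ (coord v i : ℤ) := by exact_mod_cast (hW v hv).2.2.2.2.1
    exact h1.trans (hdv v))
  rw [hcard] at hcs
  have up : ∀ {x y : ℕ}, Nat.log 2 x = y → (x : ℝ) ≤ 2 ^ (y + 1) := by
    intro x y h
    rw [← h]
    exact_mod_cast (Nat.lt_pow_succ_log_self (by norm_num) x).le
  have lo : ∀ {x y : ℕ}, 0 < x → Nat.log 2 x = y → ((2 : ℝ) ^ (y + 1)) ≤ 2 * x := by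
    intro x y hx h
    rw [← h, pow_succ, mul_comm]
    exact_mod_cast Nat.mul_le_mul_left 2 (Nat.pow_log_le_self 2 hx.ne')
  have hone : ∀ m : ℕ, (1 : ℝ) ≤ min ((2 : ℝ) ^ (m + 1)) X := fun m =>
    le_min (one_le_pow₀ (by norm_num)) hX
  have eA := hE X (min ((2 : ℝ) ^ (a + 1)) X) q A hX (hone a) (min_le_right _ _) hq3 hqk (by
    intro n hn
    obtain ⟨v, hv, rfl⟩ := Finset.mem_image.mp hn
    obtain ⟨T, -, -, -, D, av, bv⟩ := hW v hv
    exact ⟨coord_pos T _, hsz v hv _, le_min (up av) (hrr v hv).1,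
      (cop T i).1.coprime_dvd_right D⟩)
  have eB := hE X (min ((2 : ℝ) ^ (b + 1)) X) q B hX (hone b) (min_le_right _ _) hq3 hqk (by
    intro n hn
    obtain ⟨v, hv, rfl⟩ := Finset.mem_image.mp hn
    obtain ⟨T, -, -, -, D, av, bv⟩ := hW v hv
    exact ⟨coord_pos T _, hsz v hv _, le_min (up bv) (hrr v hv).2,
      (cop T i).2.coprime_dvd_right D⟩)
  have eA' := eA.trans (mul_le_mul_of_nonneg_left
    ((min_le_left _ _).trans (lo (rad_pos _) a0)) (by positivity : 0 ≤ C2 * X ^ ε1))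
  have eB' := eB.trans (mul_le_mul_of_nonneg_left
    ((min_le_left _ _).trans (lo (rad_pos _) b0)) (by positivity : 0 ≤ C2 * X ^ ε1))
  have h5 : (W.card : ℝ) ^ 2 ≤ (2 * C2 * X ^ ε1 * Real.sqrt (X / Y)) ^ 2 := by
    have e1 : (2 * C2 * X ^ ε1 * Real.sqrt (X / Y)) ^ 2 =
        4 * (C2 * X ^ ε1) ^ 2 * (X / Y) := by
      rw [mul_pow, Real.sq_sqrt (by positivity)]
      ring
    rw [e1]
    refine hcs.trans ((mul_le_mul eA' eB' (Nat.cast_nonneg _) (by positivity)).trans ?_)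
    have h6 : (rad (coord v0 (i + 1)) : ℝ) * rad (coord v0 (i + 2)) ≤ X / Y := by
      rw [le_div_iff₀ hY0]
      linarith
    calc C2 * X ^ ε1 * (2 * (rad (coord v0 (i + 1)) : ℝ)) *
          (C2 * X ^ ε1 * (2 * (rad (coord v0 (i + 2)) : ℝ))) =
          4 * (C2 * X ^ ε1) ^ 2 *
            ((rad (coord v0 (i + 1)) : ℝ) * rad (coord v0 (i + 2))) := by ring
      _ ≤ _ := mul_le_mul_of_nonneg_left h6 (by positivity)
  exact (pow_le_pow_iff_left₀ (Nat.cast_nonneg _) (by positivity) (by norm_num)).1 h5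

end H71R

open H71R

theorem rch_thm (h1 : S_ENG) (h2 : S_CNT) : S_RCH := by
  classical
  intro κ ν ε hκ hν hε
  obtain ⟨C1, hC1, hT⟩ := h2 κ (ε / 4) (by linarith) (by linarith)
  obtain ⟨C2, hC2, hE⟩ := h1 κ (ε / 4) (by linarith) (by linarith)
  set ε1 : ℝ := ε / 4 with hε1
  have he1 : 0 < ε1 := by rw [hε1]; linarith
  set c : ℝ := 2 / ε1 + 1 with hc
  have hc1 : 1 ≤ c := by
    rw [hc]
    have : 0 < 2 / ε1 := by positivity
    linarith
  refine ⟨3 * C1 * c ^ 2 * (2 * C2), ?_, ?_⟩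
  · have h3 : (1 : ℝ) ≤ c ^ 2 := one_le_pow₀ hc1
    have h4 : (1 : ℝ) ≤ 3 * C1 := by linarith
    have h5 : (1 : ℝ) ≤ 3 * C1 * c ^ 2 := one_le_mul_of_one_le_of_one_le h4 h3
    exact one_le_mul_of_one_le_of_one_le h5 (by linarith)
  intro X Y F hX hY hYX hF
  have hX0 : (0 : ℝ) < X := by linarith
  have hY0 : (0 : ℝ) < Y := by linarith
  have hlog : 0 ≤ Real.log X := Real.log_nonneg hX
  -- choices
  have hch : ∀ v ∈ F, ∃ i : Fin 3, ∃ q : ℕ, Y ≤ (rad (coord v i) : ℝ) ∧ q ∣ coord v i ∧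
      X ^ (3 : ℝ) ≤ q ∧ (rad q : ℝ) ≤ X ^ ν := by
    intro v hv
    obtain ⟨-, -, -, i, hi, q, hq1, hq2, hq3⟩ := hF v hv
    exact ⟨i, q, hi, hq1, hq2, hq3⟩
  choose! ii qq hiq using hch
  set T : Finset ℕ := F.image qq with hTdef
  have hTc : (T.card : ℝ) ≤ C1 * X ^ ε1 * X ^ ν := by
    refine hT X (X ^ ν) T hX (Real.one_le_rpow hX hν.le) ?_
    intro n hn
    obtain ⟨v, hv, rfl⟩ := Finset.mem_image.mp hn
    obtain ⟨T1, -, H, -⟩ := hF v hv
    obtain ⟨-, q1, q2, q3⟩ := hiq v hv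
    have hp := coord_pos T1 (ii v)
    refine ⟨Nat.pos_of_dvd_of_pos q1 hp, ?_, q3⟩
    have h1 : (0 : ℝ) < ((v.1 + v.2 : ℕ) : ℝ) := by
      have := T1.1
      exact_mod_cast Nat.add_pos_left this _
    have h2 : ((v.1 + v.2 : ℕ) : ℝ) ≤ X ^ κ := by
      rw [← Real.exp_log h1, Real.rpow_def_of_pos hX0, mul_comm]
      exact Real.exp_le_exp.2 H
    have h3 : (qq v : ℝ) ≤ ((v.1 + v.2 : ℕ) : ℝ) := by
      exact_mod_cast (Nat.le_of_dvd hp q1).trans (coord_le v (ii v))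
    linarith
  set L : ℕ := ⌊2 * Real.log X⌋₊ with hL
  have hLc : ((L + 1 : ℕ) : ℝ) ≤ c * X ^ ε1 := by
    have h3 : (L : ℝ) ≤ 2 * Real.log X := Nat.floor_le (by positivity)
    have h4 : Real.log X ≤ X ^ ε1 / ε1 := Real.log_le_rpow_div hX0.le he1
    have h5 : (1 : ℝ) ≤ X ^ ε1 := Real.one_le_rpow hX he1.le
    push_cast
    calc (L : ℝ) + 1 ≤ 2 * (X ^ ε1 / ε1) + X ^ ε1 := by linarith
      _ = c * X ^ ε1 := by
        rw [hc]
        ring
  have hlogb : ∀ v ∈ F, ∀ s : Fin 3, (rad (coord v s) : ℝ) ≤ X →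
      Nat.log 2 (rad (coord v s)) ∈ Finset.range (L + 1) := by
    intro v hv s hs
    rw [Finset.mem_range, Nat.lt_succ_iff, hL]
    apply Nat.le_floor
    have h3 : ((2 : ℕ) ^ Nat.log 2 (rad (coord v s)) : ℕ) ≤ rad (coord v s) :=
      Nat.pow_log_le_self 2 (rad_pos _).ne'
    have h4 : (2 : ℝ) ^ Nat.log 2 (rad (coord v s)) ≤ X := by
      refine le_trans ?_ hs
      exact_mod_cast h3
    have h5 := Real.log_le_log (by positivity) h4
    rw [Real.log_pow] at h5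
    have h6 : (0.6931471803 : ℝ) < Real.log 2 := Real.log_two_gt_d9
    have h7 : (0 : ℝ) ≤ (Nat.log 2 (rad (coord v s)) : ℝ) := Nat.cast_nonneg _
    nlinarith
  let ky : ℕ × ℕ → Fin 3 × ℕ × ℕ × ℕ := fun v =>
    (ii v, qq v, Nat.log 2 (rad (coord v (ii v + 1))), Nat.log 2 (rad (coord v (ii v + 2))))
  set KK : Finset (Fin 3 × ℕ × ℕ × ℕ) :=
    (Finset.univ : Finset (Fin 3)) ×ˢ T ×ˢ Finset.range (L + 1) ×ˢ Finset.range (L + 1) with hKK
  have hrrX : ∀ v ∈ F, ∀ i : Fin 3, (rad (coord v (i + 1)) : ℝ) ≤ X ∧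
      (rad (coord v (i + 2)) : ℝ) ≤ X := by
    intro v hv i
    obtain ⟨T1, R1, -⟩ := hF v hv
    have h1 := rr T1 i
    have h2 : (RR v : ℝ) = rad (coord v i) * (rad (coord v (i + 1)) * rad (coord v (i + 2))) := by
      rw [h1]
      push_cast
      ring
    have p0 : (1 : ℝ) ≤ rad (coord v i) := by exact_mod_cast rad_pos _
    have p1 : (1 : ℝ) ≤ rad (coord v (i + 1)) := by exact_mod_cast rad_pos _
    have p2 : (1 : ℝ) ≤ rad (coord v (i + 2)) := by exact_mod_cast rad_pos _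
    have h3 : (rad (coord v (i + 1)) : ℝ) ≤ rad (coord v (i + 1)) * rad (coord v (i + 2)) := by
      nlinarith
    have h4 : (rad (coord v (i + 2)) : ℝ) ≤ rad (coord v (i + 1)) * rad (coord v (i + 2)) := by
      nlinarith
    have h5 : (rad (coord v (i + 1)) * rad (coord v (i + 2)) : ℝ) ≤ RR v := by
      rw [h2]
      nlinarith
    exact ⟨by linarith, by linarith⟩
  have hmaps : Set.MapsTo ky (F : Set (ℕ × ℕ)) KK := by
    intro v hv
    rw [Finset.mem_coe] at hv ⊢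
    rw [hKK, Finset.mem_product, Finset.mem_product, Finset.mem_product]
    exact ⟨Finset.mem_univ _, Finset.mem_image_of_mem _ hv,
      hlogb v hv _ (hrrX v hv (ii v)).1, hlogb v hv _ (hrrX v hv (ii v)).2⟩
  have hfib : ∀ k ∈ KK, (((F.filter (fun v => ky v = k)).card : ℕ) : ℝ) ≤
      2 * C2 * X ^ ε1 * Real.sqrt (X / Y) := by
    rintro ⟨i, q, a, b⟩ _
    rcases (F.filter (fun v => ky v = (i, q, a, b))).eq_empty_or_nonempty with h0 | ⟨v0, hv0⟩
    · rw [h0, Finset.card_empty, Nat.cast_zero]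
      have : (0 : ℝ) < X ^ ε1 := Real.rpow_pos_of_pos hX0 _
      positivity
    have hq3 : X ^ (3 : ℝ) ≤ q := by
      rw [Finset.mem_filter] at hv0
      have h3 : qq v0 = q := congrArg (fun z : Fin 3 × ℕ × ℕ × ℕ => z.2.1) hv0.2
      rw [← h3]
      exact (hiq v0 hv0.1).2.2.1
    refine fib hC2 hE hX hY i q hq3 a b _ fun v hv => ?_
    rw [Finset.mem_filter] at hv
    obtain ⟨hvF, hk⟩ := hv
    have e1 : ii v = i := congrArg (fun z : Fin 3 × ℕ × ℕ × ℕ => z.1) hk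
    have e2 : qq v = q := congrArg (fun z : Fin 3 × ℕ × ℕ × ℕ => z.2.1) hk
    have e3 : Nat.log 2 (rad (coord v (ii v + 1))) = a :=
      congrArg (fun z : Fin 3 × ℕ × ℕ × ℕ => z.2.2.1) hk
    have e4 : Nat.log 2 (rad (coord v (ii v + 2))) = b :=
      congrArg (fun z : Fin 3 × ℕ × ℕ × ℕ => z.2.2.2) hk
    obtain ⟨T1, R1, H1, -⟩ := hF v hvF
    obtain ⟨y1, d1, -, -⟩ := hiq v hvF
    rw [e1] at e3 e4 y1 d1
    rw [e2] at d1
    exact ⟨T1, R1, H1, y1, d1, e3, e4⟩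
  have hcardK : (KK.card : ℝ) ≤ 3 * (C1 * X ^ ε1 * X ^ ν) * (c * X ^ ε1) ^ 2 := by
    have h3 : KK.card = 3 * (T.card * ((L + 1) * (L + 1))) := by
      rw [hKK, Finset.card_product, Finset.card_product, Finset.card_product, Finset.card_range,
        Finset.card_univ, Fintype.card_fin]
    rw [h3]
    push_cast
    push_cast at hLc
    have h4 : (0 : ℝ) ≤ (L : ℝ) + 1 := by positivity
    have h5 : (0 : ℝ) < X ^ ε1 := Real.rpow_pos_of_pos hX0 _
    have h6 : (0 : ℝ) < X ^ ν := Real.rpow_pos_of_pos hX0 _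
    calc (3 : ℝ) * ((T.card : ℝ) * (((L : ℝ) + 1) * ((L : ℝ) + 1))) =
          3 * (T.card : ℝ) * ((L : ℝ) + 1) ^ 2 := by ring
      _ ≤ 3 * (C1 * X ^ ε1 * X ^ ν) * (c * X ^ ε1) ^ 2 := by
        refine mul_le_mul (mul_le_mul_of_nonneg_left hTc (by norm_num))
          (pow_le_pow_left₀ h4 hLc 2) (by positivity) (by positivity)
  have hsum : (F.card : ℝ) ≤ KK.card * (2 * C2 * X ^ ε1 * Real.sqrt (X / Y)) := by
    rw [Finset.card_eq_sum_card_fiberwise hmaps]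
    push_cast
    calc ∑ k ∈ KK, ((F.filter (fun v => ky v = k)).card : ℝ)
        ≤ ∑ _k ∈ KK, 2 * C2 * X ^ ε1 * Real.sqrt (X / Y) := Finset.sum_le_sum hfib
      _ = _ := by rw [Finset.sum_const, nsmul_eq_mul]
  have hXe : (0 : ℝ) < X ^ ε1 := Real.rpow_pos_of_pos hX0 _
  refine hsum.trans ((mul_le_mul_of_nonneg_right hcardK (by positivity)).trans (le_of_eq ?_))
  have e5 : X ^ (ν + ε) = X ^ ν * (X ^ ε1) ^ 4 := by
    rw [← Real.rpow_natCast, ← Real.rpow_mul hX0.le, ← Real.rpow_add hX0, hε1]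
    congr 1
    push_cast
    ring
  rw [e5]
  ring

end Pool.RIC
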